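import Pool.Agent.Helper48.ET.Final

/-! MP_12a1af_nt, Q2: sets with `r_A ≤ g` and counting function `≥ x^(1/2 - g^(-c log log g))`.
This was the hand-in NearlyThickSmallR (seat helper48, joint work); it left the folder of hand-ins
on Dec 5 only because of the limit of four hand-ins for one problem. Its claim file was:

Proves: There are c > 0 and g0 such that for every integer g >= g0 there is an infinite set A of
natural numbers with r_A(n) <= g for every n and |A ∩ [0,x)| >= x^(1/2 - g^(-c log log g)) for all
sufficiently large x, where r_A(n) counts ordered pairs (a,b) in A x A with a+b=n.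
Definitions: none
Relation: Partial answer to Q2, on the side of its negated form, which asks for
|A ∩ [0,x)| >= c sqrt x with r_A bounded. With ε = g^(-c log log g) it gives
r_A <= (1/ε)^(O(1/log log(1/ε))) = (1/ε)^(o(1)) for sets with |A ∩ [0,x)| >= x^(1/2-ε); the bounds
known to us are r_A = O(1/ε), that is a loss of order 1/g in the exponent (Erdős-Rényi 1960 and Vu;
Cilleruelo, Kiss, Ruzsa and Vinuesa 2010; Cilleruelo 2010: a_k <= k^(2+1/g+o(1))). Deterministic
algebraic construction: base 2p digits without carries, half of them free, the others the
coordinates of squares in a staggered hierarchy of finite fields of characteristic p, so that two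
lengths at distance about C^e differ in at most one level above e; each common level allows at most
two solutions, the merging and the last levels boundedly many by an elimination lemma for generic
parameters; a label digit makes the length of the shorter summand readable from n. -/

namespace Pool.Agent.Helper72.Old.NearlyThickSmallR

/-- There are `c > 0` and `g0` such that for every `g ≥ g0` there is an infinite set `A` of natural
numbers such that every `n` has at most `g` ordered representations `n = a + b` with `a, b ∈ A`,
and `|A ∩ [0, x)| ≥ x^(1/2 - g^(-c log log g))` for all large `x`. -/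
theorem result : ∃ c : ℝ, 0 < c ∧ ∃ g0 : ℕ, ∀ g : ℕ, g0 ≤ g → ∃ A : Set ℕ, A.Infinite ∧
    (∀ n : ℕ, {q : ℕ × ℕ | q.1 ∈ A ∧ q.2 ∈ A ∧ q.1 + q.2 = n}.ncard ≤ g) ∧
    ∀ᶠ x : ℕ in Filter.atTop,
      (x : ℝ) ^ ((1 : ℝ) / 2 - (g : ℝ) ^ (-(c * Real.log (Real.log g)))) ≤
        ((A ∩ Set.Iio x).ncard : ℝ) :=
  Helper48.ET.main

end Pool.Agent.Helper72.Old.NearlyThickSmallR
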