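import Pool.Agent.Helper72.NS.Final

/-! MP_12a1af_nt: the Erdos-Turan problem for nested sets (slim form of the hand-in NestedSets,
which left the folder of hand-ins on Dec 5 for OnlineChoice, because of the limit of four hand-ins
for one problem). Its claim file would be:

Proves: r_A(n) = #{(a,b) in A x A: a+b = n}, N(x) = |A cap [0,x)|; integers B >= 0, C, g >= 1, Q
>= 2, real c > 0. A chain is 1 = m_0 | m_1 | .. with m_(j+1) >= 2m_j. L_j, H_j count the classes
mod m_j, the intervals [i m_J/m_j, (i+1) m_J/m_j), met by A cap [0,m_J). A is nested (with C) if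
for each J: L_j <= C N(C m_j) for all j <= J or H_j <= C N(C m_j) for all j <= J. If A is nested
along a chain with m_(j+1) <= Q m_j, then for some E = E(Q,C) > 0: r_A(n) >= (log n)/E infinitely
often if A+A contains all large n; r_A(n) >= (log n)/(E(B+1)) infinitely often if N(x) >= c sqrt
x/(log x)^B for all large x; and N(x) <= E g x^(1/2-1/(Eg)) for all x >= 1 if r_A <= g. If A is
nested along any chain and N(m_J) >= c sqrt(m_J) infinitely often, r_A is unbounded. A is nested
along a chain if for all j each a in A is = some b in A, b < C m_j, mod m_j, or if each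
floor(a/(m_J/m_j)), a in A, a < m_J, j <= J, is floor(b/C) for a b in A.
Definitions: rep: r_A; num: N; boxMod, boxInt: L, H; Chain, Nested as above.
Relation: Partial: Q1 and Q2 in strong form (order log n; also below the density sqrt x) for
nested sets, such as sets closed under a -> a mod q^j for all j. The order log n fails for general
sets: there are bases with r_A <= C log n/log log n and denser than sqrt x/(log x)^3 sets with r_A
<= C sqrt(log n) (our BasisPoissonTails, ThickSqrtLog). -/

namespace Pool.Agent.Results.MP_12a1af_nt.NestedSets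

open Finset Filter Pool.Agent.Helper72.NS

/-- Nested sets along a chain of bounded ratios have representation numbers of order `log n`
infinitely often; arbitrary chains; which sets are nested. -/
theorem result :
    (∀ Q C : ℕ, 2 ≤ Q → 1 ≤ C → ∃ E : ℝ, 0 < E ∧
      ∀ (A : Set ℕ) (m : ℕ → ℕ), Chain m → (∀ j, m (j + 1) ≤ Q * m j) → Nested A m C →
        ((∃ N : ℕ, ∀ n : ℕ, N ≤ n → ∃ a ∈ A, ∃ b ∈ A, a + b = n) →
          ∃ᶠ n : ℕ in atTop, Real.log n / E ≤ rep A n) ∧
        (∀ (B : ℕ) (c : ℝ), 0 < c → (∀ᶠ x : ℕ in atTop, c * √x / Real.log x ^ B ≤ num A x) →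
          ∃ᶠ n : ℕ in atTop, Real.log n / (E * (B + 1)) ≤ rep A n) ∧
        (∀ g : ℕ, 1 ≤ g → (∀ n, rep A n ≤ g) → ∀ x : ℕ, 1 ≤ x →
          (num A x : ℝ) ≤ E * g * (x : ℝ) ^ (1 / 2 - 1 / (E * g)))) ∧
    (∀ (A : Set ℕ) (m : ℕ → ℕ) (C : ℕ) (c : ℝ), 1 ≤ C → 0 < c → Chain m → Nested A m C →
      (∃ᶠ J : ℕ in atTop, c * √(m J) ≤ num A (m J)) → ∀ g : ℕ, ∃ n, g < rep A n) ∧
    (∀ (A : Set ℕ) (m : ℕ → ℕ) (C : ℕ), 1 ≤ C → Chain m →
      ((∀ j, ∀ a ∈ A, ∃ b ∈ A, b < C * m j ∧ b % m j = a % m j) ∨
        (∀ J, ∀ j ≤ J, ∀ a ∈ A, a < m J → ∃ b ∈ A, b / C = a / (m J / m j))) →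
        Nested A m C) := by
  refine ⟨?_, ?_, ?_⟩
  · intro Q C hQ hC
    obtain ⟨E, hE, h⟩ := main_nested hQ hC
    refine ⟨E, hE, fun A m hm hq hN => ?_⟩
    obtain ⟨-, h2, h3⟩ := h A m hm hq hN
    refine ⟨fun hb => ?_, h2, h3⟩
    have h4 := h2 0 (1 / 2) (by norm_num) (thick_of_basis hb)
    refine h4.mono fun n hn => ?_
    have e : E * (((0 : ℕ) : ℝ) + 1) = E := by simp
    rwa [e] at hn
  · intro A m C c hC hc hm hN h g
    exact chain_case hC hm hN c hc h g
  · intro A m C hC hm h
    rcases h with h | h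
    · exact nested_low hC h
    · exact nested_high hm hC h

end Pool.Agent.Results.MP_12a1af_nt.NestedSets
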